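import Pool.Agent.Y119.HG.Defs2

/-! Project HG (helper119), part TT: relations for the limit part. -/

set_option autoImplicit false

open Matrix Pool.Agent.Y119.HY Pool.Agent.Y119.HZ Pool.Agent.Y118.CM

namespace Pool.Agent.Y274.HG

open Pool.Agent.Y119.HG

theorem Nn_eq (n : ℕ) : Nn n ℂ = cm (Am n) := by
  ext i j
  unfold Nn cm Am
  rw [RingHom.mapMatrix_apply, Matrix.map_apply, Matrix.of_apply, Matrix.of_apply]
  split_ifs <;> simp

theorem Jn_eq (n : ℕ) : Jn n ℂ = cm (J0 n) := by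
  ext i j
  unfold Jn cm J0
  rw [RingHom.mapMatrix_apply, Matrix.map_apply, Matrix.of_apply, Matrix.of_apply]
  split_ifs <;> simp

theorem J_sq (m : ℕ) : cm (J0 (2 * m)) * cm (J0 (2 * m)) = -1 := by
  unfold cm
  rw [← map_mul, J0_sq ⟨m, by ring⟩, map_neg, map_one]

/-- abstract form -/
theorem abs_TT {n : Type*} [Fintype n] [DecidableEq n] {A J U V C M Q : Matrix n n ℂ} {s κ : ℂ}
    (hUV : U * V = 1) (hUA : U * A = A * U) (hU : Uᵀ * J * U = J) (hJ : J * J = -1)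
    (hC : C.det ≠ 0) (h1 : C * M = s • (A * C)) (h2 : Cᵀ * J * C = κ • Q) :
    (U * C).det ≠ 0 ∧ U * C * M = s • (A * (U * C)) ∧ (U * C)ᵀ * J * (U * C) = κ • Q ∧
      U * C * (C⁻¹ * J * (C⁻¹)ᵀ) * (U * C)ᵀ = J := by
  have hUd : U.det ≠ 0 := by
    intro h
    have h3 := congrArg Matrix.det hUV
    rw [Matrix.det_mul, h, zero_mul, Matrix.det_one] at h3
    exact zero_ne_one h3
  have hCu : IsUnit C.det := isUnit_iff_ne_zero.2 hC
  have hUJ : U * J * Uᵀ = J := by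
    have h3 : (-(J * Uᵀ * J)) * U = 1 := by
      have h4 : (-(J * Uᵀ * J)) * U = -(J * (Uᵀ * J * U)) := by
        simp only [Matrix.neg_mul, Matrix.mul_assoc]
      rw [h4, hU, hJ, neg_neg]
    have h5 : U * (-(J * Uᵀ * J)) = 1 := mul_eq_one_comm.1 h3
    have h6 : U * J * Uᵀ = U * (-(J * Uᵀ * J)) * J := by
      have h7 : U * (-(J * Uᵀ * J)) * J = -(U * J * Uᵀ * (J * J)) := by
        simp only [Matrix.mul_neg, Matrix.neg_mul, Matrix.mul_assoc]
      rw [h7, hJ, Matrix.mul_neg, Matrix.mul_one, neg_neg]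
    rw [h6, h5, Matrix.one_mul]
  refine ⟨?_, ?_, ?_, ?_⟩
  · rw [Matrix.det_mul]
    exact mul_ne_zero hUd hC
  · rw [Matrix.mul_assoc, h1, Matrix.mul_smul, ← Matrix.mul_assoc, hUA, Matrix.mul_assoc]
  · have h3 : (U * C)ᵀ * J * (U * C) = Cᵀ * (Uᵀ * J * U) * C := by
      rw [Matrix.transpose_mul]
      simp only [Matrix.mul_assoc]
    rw [h3, hU, h2]
  · have h3 : U * C * (C⁻¹ * J * (C⁻¹)ᵀ) * (U * C)ᵀ =
        U * ((C * C⁻¹) * J * ((C⁻¹)ᵀ * Cᵀ)) * Uᵀ := by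
      rw [Matrix.transpose_mul]
      simp only [Matrix.mul_assoc]
    rw [h3, ← Matrix.transpose_mul, Matrix.mul_nonsing_inv _ hCu, Matrix.transpose_one,
      Matrix.one_mul, Matrix.mul_one, hUJ]

theorem t_TT : T_TT := by
  intro m _ t C M Q s κ hC h1 h2
  rw [Nn_eq, Jn_eq]
  unfold Tt
  exact abs_TT (E_mul_neg (Ac_nil (n := 2 * m)) (-((Real.log t : ℝ) : ℂ)))
    (Pool.Agent.Y118.CM.E_comm _ _) (E_isom Ac_nil (J0c_rel (2 * m)) _) (J_sq m) hC h1 h2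

end Pool.Agent.Y274.HG
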